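import Pool.Agent.H95.Pend

set_option autoImplicit false
open Filter Topology MeasureTheory Real Pool.Agent.H95.PendDefs

theorem Pool.Agent.Results.MP_4601b9_an.Cex.result :
    ∃ a φ ψ : ℝ → ℝ, Continuous a ∧ (∀ x, 1 ≤ a x ∧ a x ≤ 2) ∧ Continuous φ ∧
      Continuous ψ ∧ MemLp ψ 2 volume ∧ IsWeakDeriv φ ψ ∧ Solves a φ ψ ∧ φ 0 = 0 ∧
      Tendsto φ atTop (𝓝 (π / 2)) ∧ Tendsto φ atBot (𝓝 (-(π / 2))) ∧ ∃ x, 0 < x ∧ φ x < 0 :=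
  Pool.Agent.H95.Pend.main
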